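import Mathlib
import Pool.Agent.Results.MP_0f2167_co.AllOrders

set_option autoImplicit false

/-!
# Families of latin squares balanced for ordered triads in rows and in columns

For every order `n ≥ 3` there is a triad-balanced family of `n - 1` latin squares (the full answer
to the question, starting file `AllOrders`).  New: when `4` does not divide `n` (and also for
`n = 4, 8`), the family can be chosen so that every square is symmetric, hence so that every
ordered triad of distinct symbols occurs exactly once in the rows and exactly once in the columns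
of the squares.
-/

namespace Pool.Agent.Results.MP_0f2167_co.RowsAndColumns

open Pool.Agent.Helper969.TB

/-- `L` is a latin square of order `n` on the symbols `Fin n`: every row and every column
contains every symbol exactly once. -/
def IsLatinSquare {n : ℕ} (L : Fin n → Fin n → Fin n) : Prop :=
  (∀ i, Function.Bijective fun j => L i j) ∧ (∀ j, Function.Bijective fun i => L i j)

/-- The ordered triad `(a, b, c)` stands in row `i` of `L` in the consecutive columns
`j`, `j + 1`, `j + 2` (columns are numbered from `0` and are not read cyclically). -/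
def InRow {n : ℕ} (L : Fin n → Fin n → Fin n) (i : Fin n) (j : ℕ) (a b c : Fin n) : Prop :=
  ∃ h : j + 2 < n, L i ⟨j, by omega⟩ = a ∧ L i ⟨j + 1, by omega⟩ = b ∧ L i ⟨j + 2, h⟩ = c

/-- The ordered triad `(a, b, c)` stands in column `j` of `L` in the consecutive rows
`i`, `i + 1`, `i + 2` (not read cyclically). -/
def InColumn {n : ℕ} (L : Fin n → Fin n → Fin n) (i : ℕ) (j : Fin n) (a b c : Fin n) : Prop :=
  ∃ h : i + 2 < n, L ⟨i, by omega⟩ j = a ∧ L ⟨i + 1, by omega⟩ j = b ∧ L ⟨i + 2, h⟩ j = c

/-- The family `L 0, …, L (n - 2)` of `n - 1` latin squares of order `n` is triad-balanced in the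
rows: every ordered triad of distinct symbols occurs in a row of exactly one square, and exactly
once there. -/
def RowBalanced {n : ℕ} (L : Fin (n - 1) → Fin n → Fin n → Fin n) : Prop :=
  (∀ k, IsLatinSquare (L k)) ∧
  ∀ a b c : Fin n, a ≠ b → a ≠ c → b ≠ c →
    ∃! t : Fin (n - 1) × Fin n × ℕ, InRow (L t.1) t.2.1 t.2.2 a b c

/-- The family of `n - 1` latin squares of order `n` is triad-balanced in the columns: every
ordered triad of distinct symbols occurs in a column of exactly one square, and exactly once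
there. -/
def ColumnBalanced {n : ℕ} (L : Fin (n - 1) → Fin n → Fin n → Fin n) : Prop :=
  (∀ k, IsLatinSquare (L k)) ∧
  ∀ a b c : Fin n, a ≠ b → a ≠ c → b ≠ c →
    ∃! t : Fin (n - 1) × ℕ × Fin n, InColumn (L t.1) t.2.1 t.2.2 a b c

theorem row_of_start {n : ℕ} {L : Fin (n - 1) → Fin n → Fin n → Fin n}
    (h : AllOrders.TriadBalanced L) : RowBalanced L := h

/-- A row-balanced family of symmetric squares is column-balanced. -/
theorem column_of_row {n : ℕ} {L : Fin (n - 1) → Fin n → Fin n → Fin n}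
    (h : RowBalanced L) (hs : ∀ k i j, L k i j = L k j i) : ColumnBalanced L := by
  refine ⟨h.1, fun a b c hab hac hbc => ?_⟩
  obtain ⟨⟨k, i, j⟩, ⟨hj, h1, h2, h3⟩, huniq⟩ := h.2 a b c hab hac hbc
  refine ⟨(k, j, i), ⟨hj, ?_, ?_, ?_⟩, ?_⟩
  · show L k ⟨j, _⟩ i = a
    rw [hs]
    exact h1
  · show L k ⟨j + 1, _⟩ i = b
    rw [hs]
    exact h2
  · show L k ⟨j + 2, _⟩ i = c
    rw [hs]
    exact h3
  · rintro ⟨k', j', i'⟩ ⟨hj', h1', h2', h3'⟩
    have h4 := huniq (k', i', j') ⟨hj', by
      show L k' i' ⟨j', _⟩ = a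
      rw [hs]
      exact h1', by
      show L k' i' ⟨j' + 1, _⟩ = b
      rw [hs]
      exact h2', by
      show L k' i' ⟨j' + 2, _⟩ = c
      rw [hs]
      exact h3'⟩
    simp only [Prod.mk.injEq] at h4 ⊢
    exact ⟨h4.1, h4.2.2, h4.2.1⟩

/-- Symmetric squares from sequences in a set with a commutative cancellative operation. -/
theorem finishSym (n : ℕ) (hn : 3 ≤ n) (S K : Type) [Fintype S] [Fintype K]
    (hS : Fintype.card S = n) (hK : Fintype.card K + 1 = n) (op : S → S → S)
    (comm : ∀ x y, op x y = op y x) (canc : ∀ x y z, op x y = op x z → y = z) (P : K → ℕ → S)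
    (inj : ∀ k a b, a < n → b < n → P k a = P k b → a = b)
    (tri : ∀ a b c : S, a ≠ b → b ≠ c → a ≠ c → ∃ k g j, j + 2 < n ∧ op (P k j) g = a ∧
      op (P k (j + 1)) g = b ∧ op (P k (j + 2)) g = c) :
    ∃ L' : Fin (n - 1) → Fin n → Fin n → Fin n, RowBalanced L' ∧
      ∀ k i j, L' k i j = L' k j i := by
  classical
  let eS : S ≃ Fin n := Fintype.equivFinOfCardEq hS
  let eK : K ≃ Fin (n - 1) := Fintype.equivFinOfCardEq (by omega)
  let L' : Fin (n - 1) → Fin n → Fin n → Fin n :=
    fun k i j => eS (op (P (eK.symm k) i) (P (eK.symm k) j))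
  have hsym : ∀ k i j, L' k i j = L' k j i := by
    intro k i j
    show eS _ = eS _
    rw [comm]
  have hP : ∀ k, Function.Bijective fun i : Fin n => P k i := by
    intro k
    rw [Fintype.bijective_iff_injective_and_card]
    refine ⟨?_, by rw [hS, Fintype.card_fin]⟩
    intro a b hab
    exact Fin.ext (inj k a b a.isLt b.isLt hab)
  have hrow : ∀ k i, Function.Injective fun j => L' k i j := by
    intro k i a b hab
    have h1 : op (P (eK.symm k) i) (P (eK.symm k) a) = op (P (eK.symm k) i) (P (eK.symm k) b) :=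
      eS.injective hab
    exact (hP _).1 (canc _ _ _ h1)
  have hex : ∀ a b c : Fin n, a ≠ b → a ≠ c → b ≠ c →
      ∃ (k : Fin (n - 1)) (i : Fin n) (j : ℕ), InRow (L' k) i j a b c := by
    intro a b c hab hac hbc
    obtain ⟨k, g, j, hj, h1, h2, h3⟩ := tri (eS.symm a) (eS.symm b) (eS.symm c)
      (by simpa using hab) (by simpa using hbc) (by simpa using hac)
    obtain ⟨i, hi⟩ := (hP k).2 g
    have hi' : P k i = g := hi
    refine ⟨eK k, i, j, hj, ?_, ?_, ?_⟩
    · show eS (op (P (eK.symm (eK k)) i) (P (eK.symm (eK k)) j)) = a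
      rw [Equiv.symm_apply_apply, hi', comm, h1, Equiv.apply_symm_apply]
    · show eS (op (P (eK.symm (eK k)) i) (P (eK.symm (eK k)) (j + 1))) = b
      rw [Equiv.symm_apply_apply, hi', comm, h2, Equiv.apply_symm_apply]
    · show eS (op (P (eK.symm (eK k)) i) (P (eK.symm (eK k)) (j + 2))) = c
      rw [Equiv.symm_apply_apply, hi', comm, h3, Equiv.apply_symm_apply]
  refine ⟨L', ⟨fun k => ⟨fun i => Finite.injective_iff_bijective.1 (hrow k i), fun j => ?_⟩, ?_⟩,
    hsym⟩
  · have h1 := Finite.injective_iff_bijective.1 (hrow k j)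
    have h2 : (fun i => L' k i j) = fun i => L' k j i := funext fun i => hsym k i j
    rw [h2]
    exact h1
  -- the map from positions to embeddings
  let Φ : Fin (n - 1) × Fin n × Fin (n - 2) → (Fin 3 ↪ Fin n) := fun t =>
    ⟨fun s => L' t.1 t.2.1 ⟨t.2.2 + s, by have := t.2.2.isLt; have := s.isLt; omega⟩, by
      intro x y hxy
      have := hrow t.1 t.2.1 hxy
      have h2 := congrArg Fin.val this
      simp only at h2
      exact Fin.ext (by omega)⟩
  have hsurj : Function.Surjective Φ := by
    intro e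
    obtain ⟨k, i, j, hj, h1, h2, h3⟩ := hex (e 0) (e 1) (e 2) (by simp) (by simp) (by simp)
    refine ⟨(k, i, ⟨j, by omega⟩), ?_⟩
    apply DFunLike.ext
    intro s
    fin_cases s
    · exact h1
    · exact h2
    · exact h3
  have hcard : Fintype.card (Fin (n - 1) × Fin n × Fin (n - 2)) = Fintype.card (Fin 3 ↪ Fin n) := by
    rw [Fintype.card_embedding_eq, Fintype.card_prod, Fintype.card_prod]
    simp only [Fintype.card_fin]
    obtain ⟨m, rfl⟩ : ∃ m, n = m + 3 := ⟨n - 3, by omega⟩
    simp only [Nat.descFactorial_succ, Nat.descFactorial_zero]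
    have e1 : m + 3 - 1 = m + 2 := by omega
    have e2 : m + 3 - 2 = m + 1 := by omega
    rw [e1, e2]
    simp only [Nat.sub_zero, Nat.mul_one]
    ring
  have hinj : Function.Injective Φ :=
    ((Fintype.bijective_iff_surjective_and_card Φ).2 ⟨hsurj, hcard⟩).1
  intro a b c hab hac hbc
  obtain ⟨k, i, j, ho⟩ := hex a b c hab hac hbc
  refine ⟨(k, i, j), ho, ?_⟩
  rintro ⟨k', i', j'⟩ ho'
  obtain ⟨hj, h1, h2, h3⟩ := ho
  obtain ⟨hj', h1', h2', h3'⟩ := ho'
  simp only at hj hj' h1 h2 h3 h1' h2' h3'
  have : Φ (k', i', ⟨j', by omega⟩) = Φ (k, i, ⟨j, by omega⟩) := by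
    apply DFunLike.ext
    intro s
    fin_cases s
    · exact h1'.trans h1.symm
    · exact h2'.trans h2.symm
    · exact h3'.trans h3.symm
  have := hinj this
  simp only [Prod.mk.injEq, Fin.mk.injEq] at this
  obtain ⟨rfl, rfl, rfl⟩ := this
  rfl

theorem odd_sym (n : ℕ) (hodd : n % 2 = 1) (hn : 3 ≤ n) :
    ∃ L' : Fin (n - 1) → Fin n → Fin n → Fin n, RowBalanced L' ∧
      ∀ k i j, L' k i j = L' k j i := by
  obtain ⟨G, iG, iF, Q, iQ, P, q0, hG, hQ, hD⟩ := oddData_all n hodd hn
  subst hG
  refine finishSym (Fintype.card G) hn G (Q × Bool) rfl ?_ (fun x y => x + y)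
    (fun x y => add_comm x y) (fun x y z h => add_left_cancel h)
    (fun k j => if k.2 then P k.1 (Fintype.card G - 1 - j) else P k.1 j) ?_ ?_
  · rw [Fintype.card_prod, Fintype.card_bool]; omega
  · rintro ⟨k, b⟩ x y hx hy hxy
    cases b
    · exact hD.inj k x y hx hy (by simpa using hxy)
    · have h' : P k (Fintype.card G - 1 - x) = P k (Fintype.card G - 1 - y) := by
        simpa using hxy
      have := hD.inj k _ _ (by omega) (by omega) h'
      omega
  · intro a b c hab hbc hac
    obtain ⟨k, g, j, hj, ⟨h1, h2, h3⟩ | ⟨h1, h2, h3⟩⟩ := hD.tri a b c hab hbc hac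
    · exact ⟨(k, false), g, j, hj, by simpa using h1, by simpa using h2, by simpa using h3⟩
    · refine ⟨(k, true), g, Fintype.card G - 3 - j, by omega, ?_, ?_, ?_⟩
      · have e : Fintype.card G - 1 - (Fintype.card G - 3 - j) = j + 2 := by omega
        simp only [if_true, e, h3]
      · have e : Fintype.card G - 1 - (Fintype.card G - 3 - j + 1) = j + 1 := by omega
        simp only [if_true, e, h2]
      · have e : Fintype.card G - 1 - (Fintype.card G - 3 - j + 2) = j := by omega
        simp only [if_true, e, h1]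

theorem twice_odd_sym (m : ℕ) (hm : m % 2 = 1) (hm3 : 3 ≤ m) :
    ∃ L' : Fin (2 * m - 1) → Fin (2 * m) → Fin (2 * m) → Fin (2 * m), RowBalanced L' ∧
      ∀ k i j, L' k i j = L' k j i := by
  classical
  obtain ⟨G, iG, iF, Q, iQ, P, q0, hG, hQ, hD⟩ := oddData_all m hm hm3
  have hinj := hD.inj
  have htri := hD.tri
  have hlast := hD.last
  have hpair := hD.pair
  rw [hG] at hinj htri hlast hpair
  refine finishSym (2 * m) (by omega) (G × Bool) ((Q × Bool × Bool) ⊕ Unit) ?_ ?_
    (fun x y => (x.1 + y.1, xor x.2 y.2)) ?_ ?_ (fun k J => (BV m P q0 k J, BW m q0 k J)) ?_ ?_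
  · rw [Fintype.card_prod, hG, Fintype.card_bool, Nat.mul_comm]
  · rw [Fintype.card_sum, Fintype.card_prod, Fintype.card_prod, Fintype.card_bool,
      Fintype.card_unit]
    omega
  · intro x y
    show (x.1 + y.1, xor x.2 y.2) = (y.1 + x.1, xor y.2 x.2)
    rw [add_comm, Bool.xor_comm]
  · rintro ⟨x1, x2⟩ ⟨y1, y2⟩ ⟨z1, z2⟩ h
    simp only [Prod.mk.injEq] at h
    obtain ⟨h1, h2⟩ := h
    have h3 := add_left_cancel h1
    subst h3
    have h4 : y2 = z2 := by
      revert h2
      cases x2 <;> cases y2 <;> cases z2 <;> simp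
    rw [h4]
  · intro k a b ha hb hab
    have h1 := BL_inj (P := P) (q0 := q0) hinj hm k (0, false) a b ha hb (by
      simp only [Prod.mk.injEq] at hab
      show (BV m P q0 k a + 0, xor (BW m q0 k a) false) =
        (BV m P q0 k b + 0, xor (BW m q0 k b) false)
      rw [hab.1, hab.2])
    exact h1
  · intro a b c hab hbc hac
    obtain ⟨k, i, J, hJ, h1, h2, h3⟩ := btri hm hm3 htri hlast hpair a b c hab hbc hac
    exact ⟨k, i, J, hJ, h1, h2, h3⟩

theorem four_sym : ∃ L' : Fin (4 - 1) → Fin 4 → Fin 4 → Fin 4, RowBalanced L' ∧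
    ∀ k i j, L' k i j = L' k j i := by
  refine finishSym 4 (by norm_num) (Bool × Bool) (Fin 3) (by simp) (by simp)
    (fun x y => (xor x.1 y.1, xor x.2 y.2)) (by decide) (by decide) P4 ?_ ?_
  · have h : ∀ k : Fin 3, ∀ a b : Fin 4, P4 k a = P4 k b → a = b := by decide
    intro k a b ha hb hab
    have := h k ⟨a, ha⟩ ⟨b, hb⟩ hab
    simpa using this
  · have h : ∀ a b c : Bool × Bool, a ≠ b → b ≠ c → a ≠ c → ∃ k : Fin 3, ∃ i : Bool × Bool,
        ∃ j : Fin 2, L4 k i j = a ∧ L4 k i (j + 1) = b ∧ L4 k i (j + 2) = c := by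
      decide
    intro a b c hab hbc hac
    obtain ⟨k, i, j, h1, h2, h3⟩ := h a b c hab hbc hac
    exact ⟨k, i, j, by have := j.isLt; omega, h1, h2, h3⟩

theorem eight_sym : ∃ L' : Fin (8 - 1) → Fin 8 → Fin 8 → Fin 8, RowBalanced L' ∧
    ∀ k i j, L' k i j = L' k j i := by
  refine finishSym 8 (by norm_num) (ZMod 8) (Fin 7) (by simp [ZMod.card]) (by simp)
    (fun x y => x + y) (fun x y => add_comm x y) (fun x y z h => add_left_cancel h) P8 ?_ ?_
  · intro k a b ha hb hab
    have := P8_inj k ⟨a, ha⟩ ⟨b, hb⟩ hab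
    simpa using this
  · intro a b c hab hbc hac
    obtain ⟨k, j, h1, h2⟩ := P8_tri (b - a) (c - b) (sub_ne_zero.2 hab.symm)
      (sub_ne_zero.2 hbc.symm) (by
        intro h
        apply hac
        have : c - a = 0 := by rw [← h]; ring
        exact (sub_eq_zero.1 this).symm)
    refine ⟨k, a - P8 k j, j, by have := j.isLt; omega, by ring, ?_, ?_⟩
    · have : P8 k (j + 1) = b - a + P8 k j := by rw [← h1]; ring
      simp only [this]; ring
    · have h3 : P8 k (j + 1) = b - a + P8 k j := by rw [← h1]; ring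
      have : P8 k (j + 2) = c - b + P8 k (j + 1) := by rw [← h2]; ring
      simp only [this, h3]; ring

/-- **Full answer, stronger form.** For every order `n ≥ 3` there is a family of `n - 1` latin
squares of order `n` which is triad-balanced in the rows; if `4` does not divide `n`, and also for
`n = 4` and `n = 8`, it can be chosen such that all its squares are symmetric, and it is then
triad-balanced in the columns as well. -/
theorem result (n : ℕ) (hn : 3 ≤ n) :
    ∃ L : Fin (n - 1) → Fin n → Fin n → Fin n, RowBalanced L ∧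
      (¬ 4 ∣ n ∨ n = 4 ∨ n = 8 → (∀ k i j, L k i j = L k j i) ∧ ColumnBalanced L) := by
  by_cases h4 : ¬ 4 ∣ n ∨ n = 4 ∨ n = 8
  · have key : ∃ L : Fin (n - 1) → Fin n → Fin n → Fin n, RowBalanced L ∧
        ∀ k i j, L k i j = L k j i := by
      rcases h4 with h4 | rfl | rfl
      · rcases Nat.mod_two_eq_zero_or_one n with h | h
        · obtain ⟨m, rfl⟩ : ∃ m, n = 2 * m := ⟨n / 2, by omega⟩
          exact twice_odd_sym m (by omega) (by omega)
        · exact odd_sym n h hn
      · exact four_sym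
      · exact eight_sym
    obtain ⟨L, hL, hs⟩ := key
    exact ⟨L, hL, fun _ => ⟨hs, column_of_row hL hs⟩⟩
  · obtain ⟨L, hL⟩ := AllOrders.result n hn
    exact ⟨L, row_of_start hL, fun h => absurd h h4⟩

end Pool.Agent.Results.MP_0f2167_co.RowsAndColumns
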